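import Pool.Agent.Zk51.SQ.Defs

/-!
# Towers of coverings unramified outside the Weierstrass points: definitions
-/

set_option autoImplicit false

open CategoryTheory

namespace Pool.Agent.Zk51.SE

open Pool.Agent.Zk51.SP Pool.Agent.Zk51.SQ

universe v u

variable {𝒜 : Type u} [Category.{v} 𝒜] [Preadditive 𝒜]

/-- Data on coverings and Belyi degrees. -/
structure Belyi (D : Curves 𝒜) where
  /-- `Mild f` for `f : X → Y`: all branch points of the covering `f` are Weierstrass points of `Y`;
  for example the étale coverings -/
  Mild : ∀ {X Y : D.V}, D.Mor X Y → Prop
  /-- the Belyi degree: the least degree of a morphism to the projective line which is unramified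
  outside three points -/
  degree : D.V → ℕ
  /-- the least degree of a morphism from `Y` to the projective line which is unramified outside three
  points and for which the images of the Weierstrass points are among these three points -/
  weier : D.V → ℕ

variable {D : Curves 𝒜} (E : Belyi D)

/-- The data with another class of basic abelian varieties. -/
def withBasic (D : Curves 𝒜) (B : ℕ → ℕ → 𝒜 → Prop) : Curves 𝒜 := { D with Basic := B }

/-- The basic abelian varieties of the step `n`: at each step there are added the Jacobians of the
curves `X` over `K`, of genus at most `m`, for which there is a covering `f : X → Y` with all branch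
points Weierstrass points, `Y` a curve over `K` of genus at least two, such that the Jacobian of `Y` is
up to isogeny a direct factor of a product of at most `m` basic abelian varieties of the step before
(`X` and `Y` with semi-stable reduction and good reduction outside `S`). -/
def Belyi.basic : ℕ → ℕ → ℕ → 𝒜 → Prop
  | 0 => D.Basic
  | n + 1 => fun b m A => Belyi.basic n b m A ∨ ∃ (X Y : D.V) (f : D.Mor X Y), D.Over b X ∧
      D.Over b Y ∧ 2 ≤ D.genus Y ∧ D.genus X ≤ m ∧ E.Mild f ∧
        IsFactor (withBasic D (Belyi.basic n)) b m (D.jac Y) ∧ A = D.jac X

/-- The data with the basic abelian varieties of the step `n`. -/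
def Belyi.level (n : ℕ) : Curves 𝒜 := withBasic D (E.basic n)

/-- The facts which are used. -/
structure Belyi.IsKnown (Def : ℕ → ℕ → 𝒜 → Prop) : Prop where
  effective : IsEffective D Def
  /-- the Jacobians of cyclic coverings of prime degree of the projective line are basic -/
  cyclic : ∀ (b : ℕ) (Y : D.V), D.Over b Y → D.Cyclic Y → D.Basic b (D.genus Y) (D.jac Y)
  /-- the composition of a covering with branch points among the Weierstrass points and a morphism to
  the projective line as above -/
  cover : ∀ {X Y : D.V} (f : D.Mor X Y), 2 ≤ D.genus Y → E.Mild f →
    E.degree X ≤ D.deg f * E.weier Y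
  /-- the theorem of Javanpykar on the Faltings height and the Belyi degree -/
  javanpykar : ∀ X : D.V, 2 ≤ D.genus X →
    D.hF (D.jac X) ≤ 13000000 * D.genus X * (E.degree X : ℝ) ^ 5
  /-- the effective theorems of Northcott and Torelli: the curves over `K` of genus at most `m` whose
  Jacobian has Faltings height at most `H` belong to a finite effectively computable list; and the
  theorem of Belyi -/
  northcott : ∃ β : ℕ × ℕ × ℕ → ℕ, Computable β ∧ ∀ (b m H : ℕ) (Y : D.V), D.Over b Y →
    2 ≤ D.genus Y → D.genus Y ≤ m → D.hF (D.jac Y) ≤ H → E.weier Y ≤ β (b, m, H)

end Pool.Agent.Zk51.SE
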