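import Pool.Agent.Zk51.SE.Defs
import Pool.Agent.Zk51.SQ.Close

/-!
# Towers of coverings unramified outside the Weierstrass points: proofs
-/

set_option autoImplicit false

open CategoryTheory

namespace Pool.Agent.Zk51.SE

open Pool.Agent.Zk51.SP Pool.Agent.Zk51.SP.Curves Pool.Agent.Zk51.SQ

universe v u

variable {𝒜 : Type u} [Category.{v} 𝒜] [Preadditive 𝒜] {D : Curves 𝒜} {E : Belyi D}
  {Def : ℕ → ℕ → 𝒜 → Prop}

/-- The height of isogeny factors. -/
theorem factor_bound {D : Curves 𝒜} (h : IsEffective D Def) :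
    ∃ F : ℕ × ℕ → ℕ, Computable F ∧ ∀ (b m : ℕ) (A : 𝒜), Def b 1 A → IsFactor D b m A →
      D.hF A ≤ F (b, m) := by
  obtain ⟨B, hBc, hB⟩ := h.arakelov.shafarevich.bound
  obtain ⟨δ, hδc, hδ⟩ := h.defn.image
  obtain ⟨κ, hκc, hκ⟩ := h.isogeny
  refine ⟨const' B δ κ, computable_const' hBc hδc hκc, fun b m A hA1 hA => ?_⟩
  refine (factor_height h hB hδ hκ hA1 hA).trans ?_
  have h1 : m * B (b, m) + m * m * isoB B δ κ (b, m) + 3 * (m * m) ≤ const' B δ κ (b, m) := by
    change _ ≤ 6 * (m * B (b, m) + m * m * isoB B δ κ (b, m) + 3 * (m * m)) + 19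
    omega
  exact_mod_cast h1

/-- The bound for coverings. -/
def coverB (F : ℕ × ℕ → ℕ) (β : ℕ × ℕ × ℕ → ℕ) (x : ℕ × ℕ) : ℕ :=
  13000000 * x.2 * (x.2 * β (x.1, x.2, F x)) ^ 5

lemma computable_coverB {F : ℕ × ℕ → ℕ} (hF : Computable F) {β : ℕ × ℕ × ℕ → ℕ}
    (hβ : Computable β) : Computable (coverB F β) := by
  have hmul : Computable₂ fun a b : ℕ => a * b := (Primrec.nat_mul).to_comp
  have h1 : Computable fun x : ℕ × ℕ => β (x.1, x.2, F x) :=
    hβ.comp (Computable.fst.pair (Computable.snd.pair hF))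
  exact hmul.comp (hmul.comp (Computable.const 13000000) Computable.snd)
    (computable_pow.comp (hmul.comp Computable.snd h1) (Computable.const 5))

/-- The height of a covering. -/
theorem cover_height (h : E.IsKnown Def) {β : ℕ × ℕ × ℕ → ℕ}
    (hβ : ∀ (b m H : ℕ) (Y : D.V), D.Over b Y → 2 ≤ D.genus Y → D.genus Y ≤ m →
      D.hF (D.jac Y) ≤ H → E.weier Y ≤ β (b, m, H)) {F : ℕ × ℕ → ℕ} {b m : ℕ} {X Y : D.V}
    (f : D.Mor X Y) (hY : D.Over b Y) (hg : 2 ≤ D.genus Y) (hX : D.genus X ≤ m)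
    (hf : E.Mild f) (hF : D.hF (D.jac Y) ≤ F (b, m)) :
    2 ≤ D.genus X ∧ D.hF (D.jac X) ≤ coverB F β (b, m) := by
  have h1 := h.effective.arakelov.geometry.deg_le f hg
  have h2 := h.effective.arakelov.geometry.deg_pos f
  have h3 : D.deg f * 1 ≤ D.deg f * (D.genus Y - 1) := Nat.mul_le_mul_left _ (by omega)
  have h4 : 1 * (D.genus Y - 1) ≤ D.deg f * (D.genus Y - 1) := Nat.mul_le_mul_right _ h2
  have hX2 : 2 ≤ D.genus X := by omega
  have h5 : E.weier Y ≤ β (b, m, F (b, m)) := hβ b m _ Y hY hg (by omega) hF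
  have h6 : E.degree X ≤ m * β (b, m, F (b, m)) :=
    (h.cover f hg hf).trans (Nat.mul_le_mul (by omega) h5)
  refine ⟨hX2, (h.javanpykar X hX2).trans ?_⟩
  unfold coverB
  push_cast
  have h7 : (E.degree X : ℝ) ^ 5 ≤ ((m : ℝ) * β (b, m, F (b, m))) ^ 5 := by
    refine pow_le_pow_left₀ (Nat.cast_nonneg _) ?_ 5
    exact_mod_cast h6
  have h8 : (D.genus X : ℝ) ≤ m := by exact_mod_cast hX
  have h9 : (0 : ℝ) ≤ (E.degree X : ℝ) ^ 5 := by positivity
  exact mul_le_mul (by linarith) h7 h9 (by positivity)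

/-- All facts hold in each step. -/
theorem isEffective (h : E.IsKnown Def) (n : ℕ) : IsEffective (E.level n) Def := by
  induction n with
  | zero => exact h.effective
  | succ n ih =>
    obtain ⟨β, hβc, hβ⟩ := h.northcott
    obtain ⟨F, hFc, hF⟩ := factor_bound ih
    have e := ih
    have hH := e.arakelov.height
    have hG := e.arakelov.geometry
    refine ⟨⟨⟨hH.torsion, hH.image, hH.product, hH.isogeny, hH.bost⟩,
      ⟨hG.pull_push, hG.deg_pos, hG.deg_le, hG.push_pull, hG.card_le, hG.line, hG.rational,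
        hG.cyclic, hG.conj, fun α H b m hO hg hgood => Or.inl (hG.basic α H b m hO hg hgood)⟩,
      e.arakelov.zhang, ?_⟩, ?_, e.isogeny, ?_⟩
    · obtain ⟨B, hB, hb⟩ := e.arakelov.shafarevich.bound
      refine ⟨?_, ?_, fun x => B x + coverB F β x, ?_, ?_⟩
      · rintro b m k A hmk (hA | ⟨X, Y, f, h1, h2, h3, h4, h5, ⟨s, q, C, u, w, hs, hq, hC, hu⟩, h7⟩)
        · exact Or.inl (e.arakelov.shafarevich.mono _ _ _ _ hmk hA)
        · exact Or.inr ⟨X, Y, f, h1, h2, h3, h4.trans hmk, h5,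
            ⟨s, q, C, u, w, hs.trans hmk, hq,
              fun j => e.arakelov.shafarevich.mono _ _ _ _ hmk (hC j), hu⟩, h7⟩
      · rintro b m A (hA | ⟨X, Y, f, h1, h2, h3, h4, h5, h6, rfl⟩)
        · exact e.arakelov.shafarevich.dim_le _ _ _ hA
        · exact (e.defn.dim_jac X).trans_le h4
      · exact ((Primrec.nat_add).to_comp (f := fun a b : ℕ => a + b)).comp hB
          (computable_coverB hFc hβc)
      · rintro b m A (hA | ⟨X, Y, f, h1, h2, h3, h4, h5, h6, rfl⟩)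
        · refine (hb b m A hA).trans ?_
          push_cast
          have : (0 : ℝ) ≤ coverB F β (b, m) := Nat.cast_nonneg _
          linarith
        · refine ((cover_height h hβ (F := F) f h2 h3 h4 h5
            (hF b m _ (e.defn.jac b Y h2) h6)).2).trans ?_
          push_cast
          have : (0 : ℝ) ≤ B (b, m) := Nat.cast_nonneg _
          linarith
    · refine ⟨e.defn.mono, e.defn.jac, e.defn.dim_jac, ?_, e.defn.product, e.defn.image⟩
      rintro b m A (hA | ⟨X, Y, f, h1, h2, h3, h4, h5, h6, rfl⟩)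
      · exact e.defn.basic _ _ _ hA
      · have h8 := (cover_height h hβ (F := F) f h2 h3 h4 h5
            (hF b m _ (e.defn.jac b Y h2) h6)).1
        exact e.defn.mono _ _ _ _ (by omega) (e.defn.jac b X h1)
    · obtain ⟨ε, hε, he⟩ := e.elliptic
      refine ⟨ε, hε, fun b X E' u v n' hO hd hn huv => ?_⟩
      obtain ⟨E'', k, h1, h2⟩ := he b X E' u v n' hO hd hn huv
      exact ⟨E'', k, Or.inl h1, h2⟩

/-- Coverings. -/
theorem isFactor_cover {n b m : ℕ} {X Y : D.V} (f : D.Mor X Y)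
    (hX : D.Over b X) (hY : D.Over b Y) (hg : 2 ≤ D.genus Y) (hm : D.genus X ≤ m) (hm1 : 1 ≤ m)
    (hf : E.Mild f) (hF : IsFactor (E.level n) b m (D.jac Y)) :
    IsFactor (E.level (n + 1)) b m (D.jac X) := by
  refine ⟨1, 1, fun _ => D.jac X, fun _ => 𝟙 _, fun _ => 𝟙 _, hm1, le_rfl,
    fun _ => Or.inr ⟨X, Y, f, hX, hY, hg, hm, hf, hF, rfl⟩, ?_⟩
  simp

/-- Small points and heights in the class of step `n`. -/
theorem small (h : E.IsKnown Def) (n : ℕ) :
    ∃ c : ℕ × ℕ → ℕ, Computable c ∧ ∀ (b m : ℕ) (X : D.V), D.Over b X → 2 ≤ D.genus X →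
      IsFactor (E.level n) b m (D.jac X) →
        D.hF (D.jac X) ≤ c (b, m) ∧ D.HasSmallPoints X (c (b, m)) := by
  obtain ⟨F, hFc, hF⟩ := factor_bound (isEffective h n)
  have hmul : Computable₂ fun a b : ℕ => a * b := (Primrec.nat_mul).to_comp
  have hadd : Computable₂ fun a b : ℕ => a + b := (Primrec.nat_add).to_comp
  refine ⟨fun x => 6 * F x + 19, hadd.comp (hmul.comp (Computable.const 6) hFc)
    (Computable.const 19), fun b m X hO hX hs => ?_⟩
  have h1 : D.hF (D.jac X) ≤ F (b, m) := hF b m _ (h.effective.defn.jac b X hO) hs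
  have h0 : (0 : ℝ) ≤ F (b, m) := Nat.cast_nonneg _
  refine ⟨?_, ?_⟩
  · push_cast
    linarith
  · refine (h.effective.arakelov.zhang X hX).mono fun x hx => ?_
    have h2 : max (D.hF (D.jac X)) 0 ≤ F (b, m) := max_le h1 h0
    have hx' : D.h X x ≤ 6 * max (D.hF (D.jac X)) 0 + 19 := hx
    change D.h X x ≤ ((6 * F (b, m) + 19 : ℕ) : ℝ)
    push_cast
    linarith

/-- Coverings of cyclic coverings of the projective line. -/
theorem small_cyclic (h : E.IsKnown Def) :
    ∃ c : ℕ × ℕ → ℕ, Computable c ∧ ∀ (b : ℕ) (X Y : D.V) (f : D.Mor X Y), D.Over b X →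
      D.Over b Y → 2 ≤ D.genus Y → D.Cyclic Y → E.Mild f →
        D.hF (D.jac X) ≤ c (b, D.genus X) ∧ D.HasSmallPoints X (c (b, D.genus X)) := by
  obtain ⟨c, hc, hcs⟩ := small h 1
  refine ⟨c, hc, fun b X Y f hX hY hg hC hf => ?_⟩
  have h1 := h.effective.arakelov.geometry.deg_le f hg
  have h2 := h.effective.arakelov.geometry.deg_pos f
  have h4 : 1 * (D.genus Y - 1) ≤ D.deg f * (D.genus Y - 1) := Nat.mul_le_mul_right _ h2
  refine hcs b _ X hX (by omega) (isFactor_cover f hX hY hg le_rfl (by omega) hf ?_)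
  refine ⟨1, 1, fun _ => D.jac Y, fun _ => 𝟙 _, fun _ => 𝟙 _, by omega, le_rfl,
    fun _ => h.effective.arakelov.shafarevich.mono _ _ _ _ (by omega) (h.cyclic b Y hY hC), ?_⟩
  simp

end Pool.Agent.Zk51.SE
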